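import Pool.Agent.Q314.GA.Main

/-!
# MP_7880bd_lc: two states do not suffice, three states always do

There is a binary string `y` (of length 252) such that every string containing `y` as a factor has
GPFA complexity exactly three; every binary string has GPFA complexity at most three.
-/

namespace Pool.Agent.Results.MP_7880bd_lc.ThreeStates

open Matrix Pool.Agent.Q314.GA

/-- a `k`-state generalized probabilistic finite automaton over `{0, 1}`; `false` is the letter `0`
and `true` is the letter `1` -/
structure GPFA (k : ℕ) where
  /-- the row vector `π` -/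
  init : Fin k → ℝ
  /-- the matrices `P_0` and `P_1` -/
  mat : Bool → Matrix (Fin k) (Fin k) ℝ
  /-- the column vector `η` -/
  fin : Fin k → ℝ

/-- `ρ_M(w) = π P_{w_1} ⋯ P_{w_n} η` -/
noncomputable def GPFA.rho {k : ℕ} (M : GPFA k) (w : List Bool) : ℝ :=
  M.init ⬝ᵥ ((w.map M.mat).prod *ᵥ M.fin)

/-- `gap_M(x)`, the minimum of `ρ_M(x) - ρ_M(z)` over the words `z ≠ x` of the length of `x`
(`+∞` if there is none) -/
noncomputable def GPFA.gap {k : ℕ} (M : GPFA k) (x : List Bool) : EReal :=
  ⨅ z ∈ {z : List Bool | z.length = x.length ∧ z ≠ x}, ((M.rho x - M.rho z : ℝ) : EReal)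

/-- the GPFA complexity `A_G(x)` -/
noncomputable def complexity (x : List Bool) : ℕ :=
  sInf {k : ℕ | 1 ≤ k ∧ ∃ M : GPFA k, 0 < M.gap x}

/-! ## The gap -/

theorem gap_pos_iff {k : ℕ} (M : GPFA k) (x : List Bool) :
    0 < M.gap x ↔ ∀ z : List Bool, z.length = x.length → z ≠ x → M.rho z < M.rho x := by
  have hfin : {z : List Bool | z.length = x.length ∧ z ≠ x}.Finite :=
    (List.finite_length_eq Bool x.length).subset (fun z hz => hz.1)
  have e : M.gap x = hfin.toFinset.inf (fun z => ((M.rho x - M.rho z : ℝ) : EReal)) := by
    rw [Finset.inf_eq_iInf]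
    simp [GPFA.gap]
  rw [e, Finset.lt_inf_iff (by simp)]
  simp only [Set.Finite.mem_toFinset, Set.mem_ofPred_eq, and_imp, EReal.coe_pos, sub_pos]

/-! ## Two states -/

theorem prod_eq_pr (P : Bool → M2) (w : List Bool) :
    (w.map P).prod = pr (P false) (P true) w := by
  induction w with
  | nil => rfl
  | cons b w ih =>
    rw [List.map_cons, List.prod_cons, ih]
    cases b <;> rfl

theorem rho_eq (M : GPFA 2) (w : List Bool) :
    M.rho w = F M.init M.fin (pr (M.mat false) (M.mat true) w) := by
  rw [GPFA.rho, prod_eq_pr, F]
  simp [dotProduct, mulVec, Fin.sum_univ_two]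

theorem two_states (u v : List Bool) (M : GPFA 2) : ¬ 0 < M.gap (u ++ (bad ++ v)) := by
  rw [gap_pos_iff]
  intro h
  have hE : Strict (M.mat false) (M.mat true) M.init M.fin (u ++ (bad ++ v)) := by
    intro z hz hne
    have := h z hz hne
    rwa [rho_eq, rho_eq] at this
  have hE' : Strict (M.mat false) (M.mat true)
      (fun j => M.init 0 * (pr (M.mat false) (M.mat true) u) 0 j
        + M.init 1 * (pr (M.mat false) (M.mat true) u) 1 j)
      (fun i => (pr (M.mat false) (M.mat true) v) i 0 * M.fin 0
        + (pr (M.mat false) (M.mat true) v) i 1 * M.fin 1) bad := by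
    intro z hz hne
    have := hE (u ++ (z ++ v)) (by simp [hz])
      (fun he => hne (List.append_cancel_right (List.append_cancel_left he)))
    rw [pr_append, pr_append, pr_append, pr_append, F_mul, F_mul] at this
    exact this
  exact not_strict _ _ _ _ hE'

/-! ## One state -/

theorem one_state (u v : List Bool) (M : GPFA 1) : ¬ 0 < M.gap (u ++ (bad ++ v)) := by
  rw [gap_pos_iff]
  intro h
  obtain ⟨w, hw⟩ : ∃ w, bad = [false, false, true] ++ w := ⟨_, rfl⟩
  have comm : ∀ X Y : Matrix (Fin 1) (Fin 1) ℝ, X * Y = Y * X := by
    intro X Y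
    ext i j
    have hi : i = 0 := Subsingleton.elim _ _
    have hj : j = 0 := Subsingleton.elim _ _
    subst hi hj
    simp only [Matrix.mul_apply, Fin.sum_univ_one]
    ring
  have e : M.rho (u ++ (([false, true, false] ++ w) ++ v)) = M.rho (u ++ (bad ++ v)) := by
    rw [hw, GPFA.rho, GPFA.rho]
    simp only [List.map_append, List.prod_append, List.map_cons, List.map_nil, List.prod_cons,
      List.prod_nil, mul_one]
    rw [comm (M.mat true) (M.mat false)]
  have := h (u ++ (([false, true, false] ++ w) ++ v)) (by simp [hw]) (by
    intro he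
    have := List.append_cancel_right (List.append_cancel_left he)
    rw [hw] at this
    have := List.append_cancel_right this
    simp at this)
  rw [e] at this
  exact lt_irrefl _ this

/-! ## Three states -/

/-- the value of a binary word -/
def val (w : List Bool) : ℝ := w.foldl (fun v b => 2 * v + (if b then 1 else 0)) 0

/-- the automaton with values `-(val z - N)²` -/
noncomputable def parabola (N : ℝ) : GPFA 3 where
  init := ![1, 0, 0]
  mat b := !![1, (if b then 1 else 0), (if b then 1 else 0) ^ 2;
    0, 2, 4 * (if b then 1 else 0); 0, 0, 4]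
  fin := ![-N ^ 2, 2 * N, -1]

theorem rho_parabola_aux (N : ℝ) (w : List Bool) (v : ℝ) :
    ![1, v, v ^ 2] ⬝ᵥ ((w.map (parabola N).mat).prod *ᵥ (parabola N).fin)
      = -(w.foldl (fun v b => 2 * v + (if b then 1 else 0)) v - N) ^ 2 := by
  induction w generalizing v with
  | nil =>
    simp [parabola, dotProduct, Fin.sum_univ_three]
    ring
  | cons b w ih =>
    rw [List.map_cons, List.prod_cons, ← Matrix.mulVec_mulVec, Matrix.dotProduct_mulVec]
    have e : (![1, v, v ^ 2] ᵥ* (parabola N).mat b)
        = ![1, 2 * v + (if b then 1 else 0), (2 * v + (if b then 1 else 0)) ^ 2] := by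
      ext i
      fin_cases i
      · simp [parabola, vecMul, dotProduct, Fin.sum_univ_three]
      · simp [parabola, vecMul, dotProduct, Fin.sum_univ_three]
        ring
      · simp [parabola, vecMul, dotProduct, Fin.sum_univ_three]
        split_ifs <;> ring
    rw [e, ih, List.foldl_cons]

theorem rho_parabola (N : ℝ) (w : List Bool) : (parabola N).rho w = -(val w - N) ^ 2 := by
  have := rho_parabola_aux N w 0
  have e : (![1, 0, 0 ^ 2] : Fin 3 → ℝ) = ![1, 0, 0] := by simp
  rw [e] at this
  exact this

theorem val_append (w : List Bool) (b : Bool) :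
    val (w ++ [b]) = 2 * val w + (if b then 1 else 0) := by
  simp [val]

/-- the integer value -/
def nval (w : List Bool) : ℕ := w.foldl (fun v b => 2 * v + (if b then 1 else 0)) 0

theorem nval_append (w : List Bool) (b : Bool) :
    nval (w ++ [b]) = 2 * nval w + (if b then 1 else 0) := by
  simp [nval]

theorem val_eq (w : List Bool) : val w = nval w := by
  induction w using List.reverseRecOn with
  | nil => simp [val, nval]
  | append_singleton w b ih =>
    rw [val_append, nval_append, ih]
    push_cast
    cases b <;> simp

theorem nval_inj (w : List Bool) : ∀ z : List Bool, z.length = w.length → nval z = nval w →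
    z = w := by
  induction w using List.reverseRecOn with
  | nil =>
    intro z hz _
    exact List.length_eq_zero_iff.1 (by simpa using hz)
  | append_singleton w b ih =>
    intro z hz hv
    rcases List.eq_nil_or_concat z with h | ⟨z', c, h⟩
    · subst h
      simp at hz
    · rw [List.concat_eq_append] at h
      subst h
      rw [nval_append, nval_append] at hv
      have hb : c = b := by
        cases c <;> cases b <;> simp at hv ⊢ <;> omega
      subst hb
      have : nval z' = nval w := by omega
      rw [ih z' (by simpa using hz) this]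

theorem parabola_gap (x : List Bool) : 0 < (parabola (val x)).gap x := by
  rw [gap_pos_iff]
  intro z hz hne
  rw [rho_parabola, rho_parabola]
  have : val z - val x ≠ 0 := by
    intro h
    apply hne
    apply nval_inj x z hz
    have := sub_eq_zero.1 h
    rw [val_eq, val_eq] at this
    exact_mod_cast this
  have : 0 < (val z - val x) ^ 2 := by positivity
  simp
  linarith

theorem complexity_le (x : List Bool) : complexity x ≤ 3 :=
  Nat.sInf_le ⟨by norm_num, parabola (val x), parabola_gap x⟩

theorem complexity_spec (x : List Bool) :
    1 ≤ complexity x ∧ ∃ M : GPFA (complexity x), 0 < M.gap x :=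
  Nat.sInf_mem (s := {k : ℕ | 1 ≤ k ∧ ∃ M : GPFA k, 0 < M.gap x})
    ⟨3, by norm_num, parabola (val x), parabola_gap x⟩

set_option maxRecDepth 20000 in
theorem bad_length : bad.length = 252 := by decide

/-- **Answer to Q1: no.** There is a binary string `y` of length 252 such that every string
containing `y` has GPFA complexity exactly three, and no string has complexity more than three.
In particular (`u = v = []`) for every two-state automaton `M` there is a word `z ≠ y` of the
length of `y` with `ρ_M(z) ≥ ρ_M(y)`. -/
theorem result :
    (∃ y : List Bool, y.length = 252 ∧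
      (∀ M : GPFA 2, ∃ z : List Bool, z.length = y.length ∧ z ≠ y ∧ M.rho y ≤ M.rho z) ∧
      ∀ u v : List Bool, complexity (u ++ y ++ v) = 3) ∧
    (∀ x : List Bool, 1 ≤ complexity x ∧ complexity x ≤ 3) := by
  refine ⟨⟨bad, bad_length, fun M => ?_, fun u v => ?_⟩, fun x => ⟨(complexity_spec x).1,
    complexity_le x⟩⟩
  · have := two_states [] [] M
    rw [gap_pos_iff] at this
    push Not at this
    obtain ⟨z, h1, h2, h3⟩ := this
    rw [List.nil_append, List.append_nil] at h1 h2 h3
    exact ⟨z, h1, h2, h3⟩
  · rw [List.append_assoc]
    refine le_antisymm (complexity_le _) ?_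
    obtain ⟨h1, M, hM⟩ := complexity_spec (u ++ (bad ++ v))
    by_contra hcon
    have : complexity (u ++ (bad ++ v)) = 1 ∨ complexity (u ++ (bad ++ v)) = 2 := by omega
    generalize complexity (u ++ (bad ++ v)) = k at *
    rcases this with h | h
    · subst h
      exact one_state u v M hM
    · subst h
      exact two_states u v M hM

end Pool.Agent.Results.MP_7880bd_lc.ThreeStates
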